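import Pool.Agent.MP_7b45f6_mp.H32.Spec

/-!
# Cutting a list along a plane
-/

set_option autoImplicit false

namespace Pool.Agent.MP_7b45f6_mp.H32

open Classical Filter Topology

namespace Cut

theorem aux (i : Fin 3) (c : ℤ) (l : List P) : ∀ p : P, ∃ (t : List P) (L : List (List P)),
    p :: l = (p :: t) ++ L.flatten ∧
    (∀ s ∈ (p :: t) :: L, s ≠ [] ∧ ((∀ y ∈ s, y i ≤ c) ∨ ∀ y ∈ s, c < y i)) ∧
    L.length ≤ jn (p :: l) + l.countP (fun y => y i = c ∨ y i = c + 1) ∧
    jn (p :: t) + (L.map jn).sum ≤ jn (p :: l) ∧
    len (p :: t) + ds i c (lt (p :: t)) + (L.map (ch i c)).sum ≤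
      len (p :: l) + ds i c (lt (p :: l)) := by
  induction l with
  | nil =>
    intro p
    refine ⟨[], [], rfl, ?_, by simp, by simp, by simp⟩
    simpa using le_or_gt (p i) c
  | cons q l ih =>
    intro p
    obtain ⟨t, L, h1, h2, h3, h4, h5⟩ := ih q
    have h6 := (h2 _ List.mem_cons_self).2
    by_cases hs : p i ≤ c ↔ q i ≤ c
    · refine ⟨q :: t, L, by rw [h1]; rfl, ?_, ?_, ?_, ?_⟩
      · intro s hs'
        rcases List.mem_cons.1 hs' with rfl | hs'
        · refine ⟨by simp, h6.imp (fun h y hy => ?_) fun h y hy => ?_⟩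
          · rcases List.mem_cons.1 hy with rfl | hy
            · exact hs.2 (h q List.mem_cons_self)
            · exact h y hy
          · rcases List.mem_cons.1 hy with rfl | hy
            · have := h q List.mem_cons_self
              omega
            · exact h y hy
        · exact h2 s (List.mem_cons_of_mem _ hs')
      · simp only [jn, cs_cons_cons, List.countP_cons] at h3 ⊢
        omega
      · simp only [jn, cs_cons_cons] at h4 ⊢
        omega
      · simp only [len, cs_cons_cons, lt_cons_cons] at h5 ⊢
        omega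
    · have h7 := coord_le_d1 p q i
      refine ⟨[], (q :: t) :: L, by rw [h1]; rfl, ?_, ?_, ?_, ?_⟩
      · intro s hs'
        rcases List.mem_cons.1 hs' with rfl | hs'
        · simpa using le_or_gt (p i) c
        · exact h2 s hs'
      · simp only [jn, cs_cons_cons, List.countP_cons, List.length_cons] at h3 ⊢
        by_cases ha : Adj p q
        · have h8 : d1 p q = 1 := ha
          rw [if_pos (by simp only [decide_eq_true_eq]; omega)]
          omega
        · rw [jmp_not ha]
          omega
      · simp only [jn, cs_cons_cons, cs_single, List.map_cons, List.sum_cons] at h4 ⊢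
        omega
      · have h8 : ds i c p + ds i c q + 1 ≤ d1 p q := by
          unfold ds
          split_ifs <;> omega
        simp only [len, cs_cons_cons, cs_single, lt_cons_cons, lt_single, List.map_cons,
          List.sum_cons, ch, hd_cons] at h5 ⊢
        omega

theorem count_le (i : Fin 3) (c : ℤ) (w : List P) (hw : w.Nodup) :
    w.countP (fun y => y i = c ∨ y i = c + 1) ≤ cnt w i c + cnt w i (c + 1) := by
  rw [List.countP_eq_length_filter, ← List.toFinset_card_of_nodup (hw.filter _)]
  refine le_trans (Finset.card_le_card fun y hy => ?_) (Finset.card_union_le _ _)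
  simp only [List.mem_toFinset, List.mem_filter, decide_eq_true_eq, Finset.mem_union,
    Finset.mem_filter] at hy ⊢
  tauto

end Cut

theorem cut : CutStmt := by
  intro i c w hw hn
  obtain ⟨p, l, rfl⟩ := List.exists_cons_of_ne_nil hw
  obtain ⟨t, L, h1, h2, h3, h4, h5⟩ := Cut.aux i c l p
  refine ⟨(p :: t, L), h1, h2, ?_, h4, h5⟩
  have h6 := Cut.count_le i c _ hn
  rw [List.countP_cons] at h6
  change L.length ≤ _
  omega

end Pool.Agent.MP_7b45f6_mp.H32
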